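import Mathlib
import Pool.Agent.X101.CR.Fin

/-!
# MP_ee92c9_pr, Q1: the optimal pairwise coupling ratio is bounded uniformly for `q ∈ [1/2, 1)`

`r*_{c_q}(𝒫(ℝ)) ≤ 17056` for every `q ∈ [1/2, 1)`. With the known bound `10.55/(1-q)` (at most
`21.1` for `q ≤ 1/2`) and the known value `1` for `q ≥ 1` this answers Q1 affirmatively.
-/

set_option autoImplicit false

open MeasureTheory Set
open scoped ENNReal

namespace Pool.Agent.Results.MP_ee92c9_pr.UniformRatio

/-- `C*_{c_q}(P, Q)`: the infimum of `E|X - Y|^q` over all joint laws `π` of `(X, Y)` with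
marginals `P` and `Q`. -/
noncomputable def Cstar (q : ℝ) (P Q : ProbabilityMeasure ℝ) : ℝ≥0∞ :=
  sInf {a : ℝ≥0∞ | ∃ π : Measure (ℝ × ℝ), π.map Prod.fst = (P : Measure ℝ) ∧
    π.map Prod.snd = (Q : Measure ℝ) ∧ a = ∫⁻ z, ENNReal.ofReal (|z.1 - z.2| ^ q) ∂π}

/-- A coupling of `𝒫(ℝ)`: Lebesgue-measurable maps `X P : [0,1] → ℝ`, one for every Borel
probability measure `P` on `ℝ`, such that `X P` has law `P`. -/
def IsCoupling (X : ProbabilityMeasure ℝ → unitInterval → ℝ) : Prop :=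
  ∀ P, AEMeasurable (X P) (volume : Measure unitInterval) ∧
    (volume : Measure unitInterval).map (X P) = (P : Measure ℝ)

/-- The pairwise coupling ratio of a coupling. -/
noncomputable def ratio (q : ℝ) (X : ProbabilityMeasure ℝ → unitInterval → ℝ) : ℝ≥0∞ :=
  sInf {r : ℝ≥0∞ | 1 ≤ r ∧ ∀ P Q : ProbabilityMeasure ℝ,
    ∫⁻ ω : unitInterval, ENNReal.ofReal (|X P ω - X Q ω| ^ q) ≤ r * Cstar q P Q}

/-- The optimal pairwise coupling ratio `r*_{c_q}(𝒫(ℝ))`. -/
noncomputable def rstar (q : ℝ) : ℝ≥0∞ :=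
  sInf {r : ℝ≥0∞ | ∃ X, IsCoupling X ∧ r = ratio q X}

/-- `r*_{c_q}(𝒫(ℝ)) ≤ 17056` for all `q ∈ [1/2, 1)`; the bound is attained by a coupling with
Borel measurable maps. -/
theorem result : ∀ q : ℝ, 1 / 2 ≤ q → q < 1 →
    rstar q ≤ 17056 ∧
    ∃ X : ProbabilityMeasure ℝ → unitInterval → ℝ,
      (∀ P, Measurable (X P) ∧
        (volume : Measure unitInterval).map (X P) = (P : Measure ℝ)) ∧
      ∀ P Q : ProbabilityMeasure ℝ,
        ∫⁻ ω : unitInterval, ENNReal.ofReal (|X P ω - X Q ω| ^ q) ≤ 17056 * Cstar q P Q := by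
  intro q hq hq1
  obtain ⟨M, hdvd, hM4, h1', h1, h2⟩ := X101.CR.exists_M hq hq1
  obtain ⟨M', hMM⟩ := hdvd
  have hM' : 1 ≤ M' := by omega
  have hM : 2 ≤ M := by omega
  obtain ⟨φ, hφm, hφ⟩ := X101.CR.mu.exists_measurable_map_eq
  have key : ∃ X : ProbabilityMeasure ℝ → unitInterval → ℝ,
      (∀ P, Measurable (X P) ∧
        (volume : Measure unitInterval).map (X P) = (P : Measure ℝ)) ∧
      ∀ P Q : ProbabilityMeasure ℝ,
        ∫⁻ ω : unitInterval, ENNReal.ofReal (|X P ω - X Q ω| ^ q) ≤ 17056 * Cstar q P Q := by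
    refine ⟨fun P ω => X101.CR.XX M P (φ ω), ?_, ?_⟩
    · intro P
      refine ⟨(X101.CR.meas_XX M P).comp hφm, ?_⟩
      have := X101.CR.law_all (P : Measure ℝ) hM
      rw [← hφ, Measure.map_map (X101.CR.meas_XX M P) hφm] at this
      exact this
    · intro P Q
      rw [mul_comm, ← ENNReal.div_le_iff_le_mul (Or.inl (by norm_num)) (Or.inl (by norm_num))]
      apply le_sInf
      rintro a ⟨π, hP, hQ, rfl⟩
      rw [ENNReal.div_le_iff_le_mul (Or.inl (by norm_num)) (Or.inl (by norm_num))]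
      have hπ : IsProbabilityMeasure π := by
        constructor
        have h : π.map Prod.fst Set.univ = 1 := by rw [hP]; simp
        rwa [Measure.map_apply measurable_fst MeasurableSet.univ, Set.preimage_univ] at h
      have hcost := X101.CR.cost_all (P : Measure ℝ) (Q : Measure ℝ) π hP hQ hMM hM' hq hq1 h1 h1' h2
      have hmX : Measurable (fun ω => ENNReal.ofReal
          (|X101.CR.XX M (P : Measure ℝ) ω - X101.CR.XX M (Q : Measure ℝ) ω| ^ q)) := by
        have a1 := X101.CR.meas_XX M (P : Measure ℝ)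
        have a2 := X101.CR.meas_XX M (Q : Measure ℝ)
        fun_prop
      rw [← hφ, lintegral_map hmX hφm] at hcost
      rw [mul_comm]
      exact hcost
  refine ⟨?_, key⟩
  obtain ⟨X, hX, hXc⟩ := key
  have hr : ratio q X ≤ 17056 := sInf_le ⟨by norm_num, hXc⟩
  refine le_trans (sInf_le ⟨X, fun P => ⟨(hX P).1.aemeasurable, (hX P).2⟩, rfl⟩) hr

end Pool.Agent.Results.MP_ee92c9_pr.UniformRatio
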